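import Pool.Agent.Run7.h399.Defs2
import Pool.Agent.Run7.h399.G4
import Pool.Agent.Run7.h399.G5
import Pool.Agent.Run7.h399.G8
import Pool.Agent.Run7.h399.G9

/-!
# Varieties of lines in arbitrary codimension
-/

set_option autoImplicit false

namespace Pool.Agent.Results.MP_429080_ag.AllCodimensions

open MvPolynomial Pool.Agent.Run7.h399 Pool.Agent.Run7.h399.LX Pool.Agent.R948

theorem result (n c r m : ℕ) (hc : 0 < c) (hr : r < n)
    (hn : 4 * r ≤ n + 1 ∨ (4 * r ≤ n + 3 ∧ 3 * r + 2 ≤ n))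
    (I : Ideal (Pol (n + c + 1))) (hX : IsManifold n c I) (hL : LinesNondegenerate n c r I)
    (q : Fin m → Pol (n + c + 1)) (hq : ∀ i, q i ∈ I ∧ (q i).IsHomogeneous 2)
    (hlin : LinearIndependent ℂ q) :
    m ≤ c ∧ c ≤ r ∧
    (r = c ∨ 2 * r + 1 + (r - c) * (c - 1 - m) ≤ n →
      ∃ g, g ∉ I ∧ ∀ x ∈ zeros I, eval x g ≠ 0 →
        ∀ A : (Fin n → ℂ) →ₗ[ℂ] (Fin (n + c + 1) → ℂ), IsFrame I x A →
          HasPureCodim r (linesIdeal I x A) ∧
          ∃ d : Fin c → ℕ, (∀ i : Fin c, (i : ℕ) < m → d i = 2) ∧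
            IsOfType r d (linesIdeal I x A)) ∧
    (3 * r + 2 ≤ n → (c ≤ m + 3 ∨ r ≤ c + 2 ∨ r ≤ 8) →
      ∃ g, g ∉ I ∧ ∀ x ∈ zeros I, eval x g ≠ 0 →
        ∀ A : (Fin n → ℂ) →ₗ[ℂ] (Fin (n + c + 1) → ℂ), IsFrame I x A →
          HasPureCodim r (linesIdeal I x A) ∧
          ∃ d : Fin c → ℕ, (∀ i : Fin c, (i : ℕ) < m → d i = 2) ∧
            IsOfType r d (linesIdeal I x A)) := by
  obtain ⟨hcr, h0, hh0, hgen⟩ := exists_setup hX hr hn hL
  have hp := hX.prime
  have hclose : ∀ x ∈ zeros I, eval x h0 ≠ 0 →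
      ∀ A : (Fin n → ℂ) →ₗ[ℂ] (Fin (n + c + 1) → ℂ), IsFrame I x A →
      m ≤ c ∧ (r = c ∨ 2 * r + 1 + (r - c) * (c - 1 - m) ≤ n →
        HasPureCodim r (linesIdeal I x A) ∧
        ∃ d : Fin c → ℕ, (∀ i : Fin c, (i : ℕ) < m → d i = 2) ∧
          IsOfType r d (linesIdeal I x A)) := by
    intro x hx hx0 A hA
    obtain ⟨hfp, Y, hYp, hYmin, hcard⟩ := hgen x hx hx0 A hA
    obtain ⟨hmc, hkey⟩ := quads_close hX hfp Y hYmin hcard hc hr (by omega) hcr q
      (fun i => (hq i).1) (fun i => (hq i).2) hlin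
    exact ⟨hmc, fun h => ⟨pure_of_ci hfp Y hYmin hcard (by omega)
      (isCI_of_generatedBy hcr (hkey h)), quads_type hX hfp Y hYmin hcard hr (by omega) hcr q
      (fun i => (hq i).1) (fun i => (hq i).2) hlin (isCI_of_generatedBy hcr (hkey h))⟩⟩
  have hmc : m ≤ c := by
    obtain ⟨k, hk, hfree⟩ := exists_free (sc_of hX) (exists_ne_of hX)
    obtain ⟨x, hx, hxne, hxg⟩ : ∃ x ∈ Pool.Agent.Run7.h399.Hart.cone I, x ≠ 0 ∧
        eval x (h0 * k) ≠ 0 := by
      by_contra hcon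
      push Not at hcon
      rcases hp.mem_or_mem
        (Pool.Agent.Run7.h399.Hart.mem_of_vanish_ne I hp (exists_ne_of hX) _ hcon) with h | h
      · exact hh0 h
      · exact hk h
    rw [map_mul] at hxg
    obtain ⟨A, hA, -⟩ := exists_frame_of (τ := Fin n) (sc_of hX)
      (by rw [Fintype.card_fin, Fintype.card_fin]) hx
      (hfree x hx (right_ne_zero_of_mul hxg)) ⊥ bot_le (by rw [Submodule.mem_bot]; exact hxne)
    exact (hclose x hx (left_ne_zero_of_mul hxg) A (isFrame_of (sc_of hX) hA)).1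
  have key : r = c ∨ 2 * r + 1 + (r - c) * (c - 1 - m) ≤ n →
      ∃ g, g ∉ I ∧ ∀ x ∈ zeros I, eval x g ≠ 0 →
        ∀ A : (Fin n → ℂ) →ₗ[ℂ] (Fin (n + c + 1) → ℂ), IsFrame I x A →
          HasPureCodim r (linesIdeal I x A) ∧
          ∃ d : Fin c → ℕ, (∀ i : Fin c, (i : ℕ) < m → d i = 2) ∧
            IsOfType r d (linesIdeal I x A) :=
    fun hcase => ⟨h0, hh0, fun x hx hx0 A hA => (hclose x hx hx0 A hA).2 hcase⟩
  refine ⟨hmc, hcr, key, fun h3 hcase => ?_⟩
  apply key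
  by_cases hrc : r = c
  · exact Or.inl hrc
  right
  have hmul : (r - c) * (c - 1 - m) + 4 ≤ 2 * r := by
    rcases hcase with h | h | h
    · have h4 : (r - c) * (c - 1 - m) ≤ (r - c) * 2 := Nat.mul_le_mul_left _ (by omega)
      rcases Nat.lt_or_ge (c - 1 - m) 2 with h2 | h2
      · have h5 : (r - c) * (c - 1 - m) ≤ (r - c) * 1 := Nat.mul_le_mul_left _ (by omega)
        rcases Nat.lt_or_ge (c - 1 - m) 1 with h6 | h6
        · have h7 : c - 1 - m = 0 := by omega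
          rw [h7, mul_zero]
          omega
        · omega
      · omega
    · rcases Nat.lt_or_ge (r - c) 2 with h2 | h2
      · have h5 : (r - c) * (c - 1 - m) ≤ 1 * (c - 1 - m) := Nat.mul_le_mul_right _ (by omega)
        omega
      · have h5 : r - c = 2 := by omega
        rw [h5]
        omega
    · have h1 : (r - c) * (c - 1 - m) ≤ (r - c) * (c - 1) := Nat.mul_le_mul_left _ (by omega)
      have h2 : (r - c) * (c - 1) + 4 ≤ 2 * r := by
        clear h1 hclose key hgen hL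
        interval_cases r <;> interval_cases c <;> simp_all
      omega
  omega

end Pool.Agent.Results.MP_429080_ag.AllCodimensions
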