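import Pool.Agent.Run7.h399.G2
import Pool.Agent.Run7.h399.G4
import Pool.Agent.Run7.h399.G8

/-!
# Varieties of lines through a general point are complete intersections in large dimension
-/

set_option autoImplicit false

namespace Pool.Agent.Results.MP_429080_ag.CompleteIntersection

open MvPolynomial Pool.Agent.Run7.h399 Pool.Agent.Run7.h399.LX Pool.Agent.R948

theorem result (n c m : ℕ) (hc : 0 < c) (I : Ideal (Pol (n + c + 1))) (hX : IsManifold n c I)
    (q : Fin m → Pol (n + c + 1)) (hq : ∀ i, q i ∈ I ∧ (q i).IsHomogeneous 2)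
    (hlin : LinearIndependent ℂ q) :
    ∃ g, g ∉ I ∧ ∀ x ∈ zeros I, eval x g ≠ 0 →
      ∀ A : (Fin n → ℂ) →ₗ[ℂ] (Fin (n + c + 1) → ℂ), IsFrame I x A →
        ∀ r : ℕ, r < n → ringKrullDim (Pol n ⧸ linesIdeal I x A) = ((n - r : ℕ) : WithBot ℕ∞) →
          c + 2 * r ≤ n →
            m ≤ c ∧ c ≤ r ∧
            (r = c ∨ 2 * r + 1 + (r - c) * (c - 1 - m) ≤ n →
              ∃ d : Fin c → ℕ, (∀ i : Fin c, (i : ℕ) < m → d i = 2) ∧
                IsOfType r d (linesIdeal I x A)) ∧
            (3 * r + 2 ≤ n → (c ≤ m + 2 ∨ r ≤ c + 1 ∨ r ≤ 6) →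
              ∃ d : Fin c → ℕ, (∀ i : Fin c, (i : ℕ) < m → d i = 2) ∧
                IsOfType r d (linesIdeal I x A)) := by
  obtain ⟨g, hg, hgen⟩ := exists_general hX
  refine ⟨g, hg, fun x hx hgx A hA r hr hdim hn => ?_⟩
  have hfp := hgen x hx hgx A hA
  obtain ⟨Y, hYp, hYmin, hYd⟩ := exists_component (linesIdeal I x A) (n - r) hdim
  have hcard : tdP Y + r = Fintype.card (Fin n) := by
    rw [Fintype.card_fin, hYd]; omega
  have hnd := nondeg_of hX
  have hcr : c ≤ r := by
    obtain ⟨F, hF, hind, -⟩ := Pool.Agent.Run7.h399.Hart.exists_grads hfp.sc x hfp.mem hfp.ne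
    exact codim_le hfp hnd Y hYmin hcard (by rw [Fintype.card_fin]; omega)
      (by rw [Fintype.card_fin]; omega) F hF hind
  obtain ⟨hmc, key0⟩ := quads_close hX hfp Y hYmin (by rw [hYd]; omega) hc hr hn hcr q
    (fun i => (hq i).1) (fun i => (hq i).2) hlin
  have key : r = c ∨ 2 * r + 1 + (r - c) * (c - 1 - m) ≤ n →
      ∃ d : Fin c → ℕ, (∀ i : Fin c, (i : ℕ) < m → d i = 2) ∧
        IsOfType r d (linesIdeal I x A) := fun h =>
    quads_type hX hfp Y hYmin (by rw [hYd]; omega) hr hn hcr q (fun i => (hq i).1)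
      (fun i => (hq i).2) hlin (isCI_of_generatedBy hcr (key0 h))
  refine ⟨hmc, hcr, key, fun h3 hcase => ?_⟩
  apply key
  right
  have hmul : (r - c) * (c - 1 - m) ≤ r + 1 := by
    rcases hcase with h | h | h
    · have h1 : c - 1 - m ≤ 1 := by omega
      calc (r - c) * (c - 1 - m) ≤ (r - c) * 1 := Nat.mul_le_mul_left _ h1
        _ ≤ r + 1 := by omega
    · have h1 : r - c ≤ 1 := by omega
      calc (r - c) * (c - 1 - m) ≤ 1 * (c - 1 - m) := Nat.mul_le_mul_right _ h1
        _ ≤ r + 1 := by omega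
    · have h1 : (r - c) * (c - 1 - m) ≤ (r - c) * (c - 1) := Nat.mul_le_mul_left _ (by omega)
      refine h1.trans ?_
      clear h1 hdim hn hYd hcard
      interval_cases r <;> interval_cases c <;> simp_all
  omega

end Pool.Agent.Results.MP_429080_ag.CompleteIntersection
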