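import Pool.Agent.Run7.h399.Defs2
import Pool.Agent.Run7.h399.Defs6
import Pool.Agent.Run7.h399.G6
import Pool.Agent.Run7.h399.G8
import Pool.Agent.Run7.h399.G5

/-!
# Lines whose order of contact jumps
-/

set_option autoImplicit false

namespace Pool.Agent.Results.MP_429080_ag.JumpingLines

open MvPolynomial Pool.Agent.Run7.h399 Pool.Agent.Run7.h399.LX Pool.Agent.R948

lemma tangent_iff {n m : ℕ} (I : Ideal (Pol m)) (x : Fin m → ℂ)
    (A : (Fin n → ℂ) →ₗ[ℂ] (Fin m → ℂ)) (k : ℕ) (v w : Fin n → ℂ) :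
    Module.finrank ℂ (tangentSpace (contactIdeal I x A k) v) =
      Module.finrank ℂ (tangentSpace (contactIdeal I x A k) w) ↔
    Module.finrank ℂ (Pool.Agent.Run7.h399.Hart.conormal (ordI I x A k) v) =
      Module.finrank ℂ (Pool.Agent.Run7.h399.Hart.conormal (ordI I x A k) w) := by
  have h0 : contactIdeal I x A k = ordI I x A k := rfl
  rw [tangentSpace_eq, tangentSpace_eq, h0]
  have h1 := Pool.Agent.Run7.h399.Hart.finrank_tangent (ordI I x A k) v
  have h2 := Pool.Agent.Run7.h399.Hart.finrank_tangent (ordI I x A k) w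
  omega

/-- the criterion at one point -/
theorem criterion {n c r s : ℕ} {I : Ideal (Pol (n + c + 1))} (hX : IsManifold n c I)
    {x : Fin (n + c + 1) → ℂ} {A : (Fin n → ℂ) →ₗ[ℂ] (Fin (n + c + 1) → ℂ)}
    (hfp : FreePt I c x A) (hn : c + 2 * r + s < n)
    (hdim : ringKrullDim (Pol n ⧸ linesIdeal I x A) = ((n - r : ℕ) : WithBot ℕ∞)) :
    c ≤ r ∧
    (IsCompleteIntersection r (linesIdeal I x A) ↔
      ∃ d : Fin c → ℕ, IsOfType r d (linesIdeal I x A)) ∧
    (IsCompleteIntersection r (linesIdeal I x A) ↔ UniformContact I x A) ∧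
    (IsCompleteIntersection r (linesIdeal I x A) ↔ UniformOutside s I x A) := by
  obtain ⟨Y, hYp, hYmin, hYd⟩ := exists_component (linesIdeal I x A) (n - r) hdim
  have hcard : tdP Y + r = Fintype.card (Fin n) := by
    rw [Fintype.card_fin, hYd]; omega
  have hnd := nondeg_of hX
  obtain ⟨F, hF, hind, hFs⟩ := Pool.Agent.Run7.h399.Hart.exists_grads hfp.sc x hfp.mem hfp.ne
  have hcr : c ≤ r := codim_le hfp hnd Y hYmin hcard (by rw [Fintype.card_fin]; omega)
      (by rw [Fintype.card_fin]; omega) F hF hind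
  have h0 : IsCompleteIntersection r (linesIdeal I x A) →
      ∃ d : Fin c → ℕ, IsOfType r d (linesIdeal I x A) := by
    intro h
    obtain ⟨d, -, hd⟩ := isOfType_of_ci hnd hfp Y hYmin hcard (by omega) (by omega) F hF hind hFs
      (fun i => (F i).totalDegree) (fun i => le_rfl) h
    exact ⟨d, hd⟩
  have h1 : GeneratedBy c (r - c) (linesIdeal I x A) →
      IsCompleteIntersection r (linesIdeal I x A) := isCI_of_generatedBy hcr
  have h2 : IsCompleteIntersection r (linesIdeal I x A) → UniformContact I x A := by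
    rintro ⟨-, d, G, hG, hJ⟩ k v hv w hw hv0 hw0
    have hall : ∀ (Y : Ideal (Pol n)) [Y.IsPrime], Y ∈ (linesI I x A).minimalPrimes →
        tdP Y + r ≤ Fintype.card (Fin n) := by
      intro Y' hY' hmin
      have h3 : ringKrullDim (Pol n ⧸ Y') ≤ ringKrullDim (Pol n ⧸ linesIdeal I x A) :=
        ringKrullDim_le_of_surjective (Ideal.Quotient.factor hmin.1.2)
          (Ideal.Quotient.factor_surjective hmin.1.2)
      rw [dim_prime, hdim] at h3
      have h4 : tdP Y' ≤ n - r := by exact_mod_cast h3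
      rw [Fintype.card_fin]
      omega
    rw [tangent_iff, uniform_of_ci hfp hall G d hG hJ k v hv hv0,
      uniform_of_ci hfp hall G d hG hJ k w hw hw0]
  have h3 : UniformContact I x A → UniformOutside s I x A := by
    intro h
    refine ⟨⊤, fun _ _ _ => trivial, ?_, fun k v hv w hw hv0 hw0 _ _ => h k v hv w hw hv0 hw0⟩
    haveI : Subsingleton (Pol n ⧸ (⊤ : Ideal (Pol n))) := Ideal.Quotient.subsingleton_iff.2 rfl
    rw [ringKrullDim_eq_bot_of_subsingleton]
    exact bot_le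
  have h4 : UniformOutside s I x A → GeneratedBy c (r - c) (linesIdeal I x A) := by
    rintro ⟨Z, hZ, hZd, hrk⟩
    obtain ⟨Q, G, hQ, hG, hJ, hsat⟩ := main_jump hfp hnd Y hYmin hcard
      (by rw [Fintype.card_fin]; exact hn) Z hZ (by
        intro P hP hmin
        have h5 : ringKrullDim (Pol n ⧸ P) ≤ ringKrullDim (Pol n ⧸ Z) :=
          ringKrullDim_le_of_surjective (Ideal.Quotient.factor hmin.1.2)
            (Ideal.Quotient.factor_surjective hmin.1.2)
        have h6 := h5.trans hZd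
        rw [dim_prime] at h6
        exact_mod_cast h6) (by
        intro k v hv w hw hv0 hw0 hvZ hwZ
        rw [← tangent_iff]
        exact hrk k v (fun f hf => hv f (hYmin.1.2 hf)) w (fun f hf => hw f (hYmin.1.2 hf))
          hv0 hw0 hvZ hwZ)
    exact ⟨hsat, Q, G, hQ, hG, hJ⟩
  exact ⟨hcr, ⟨h0, fun ⟨d, hd⟩ => isCI_of_isOfType hd⟩, ⟨h2, fun h => h1 (h4 (h3 h))⟩,
    ⟨fun h => h3 (h2 h), fun h => h1 (h4 h)⟩⟩

theorem result (n c r s : ℕ) (I : Ideal (Pol (n + c + 1))) (hX : IsManifold n c I)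
    (hL : c + 2 * r + s < n ∨
      (3 * r + s < n ∧ (4 * r ≤ n + 1 ∨ (4 * r ≤ n + 3 ∧ 3 * r + 2 ≤ n)) ∧
        LinesNondegenerate n c r I)) :
    ∃ g, g ∉ I ∧ ∀ x ∈ zeros I, eval x g ≠ 0 →
      ∀ A : (Fin n → ℂ) →ₗ[ℂ] (Fin (n + c + 1) → ℂ), IsFrame I x A →
        ringKrullDim (Pol n ⧸ linesIdeal I x A) = ((n - r : ℕ) : WithBot ℕ∞) →
          c ≤ r ∧
          (IsCompleteIntersection r (linesIdeal I x A) ↔
            ∃ d : Fin c → ℕ, IsOfType r d (linesIdeal I x A)) ∧
          (IsCompleteIntersection r (linesIdeal I x A) ↔ UniformContact I x A) ∧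
          (IsCompleteIntersection r (linesIdeal I x A) ↔ UniformOutside s I x A) := by
  rcases hL with hn | ⟨hn, h4, hL⟩
  · obtain ⟨g, hg, hgen⟩ := exists_general hX
    exact ⟨g, hg, fun x hx hgx A hA hdim => criterion hX (hgen x hx hgx A hA) hn hdim⟩
  · obtain ⟨hcr, h0, hh0, hgen⟩ := exists_setup hX (by omega) h4 hL
    exact ⟨h0, hh0, fun x hx hgx A hA hdim =>
      criterion hX (hgen x hx hgx A hA).1 (by omega) hdim⟩

end Pool.Agent.Results.MP_429080_ag.JumpingLines
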