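import Pool.Agent.Run7.h399.Defs2
import Pool.Agent.Run7.h399.Defs3
import Pool.Agent.Run7.h399.Defs7
import Pool.Agent.Run7.h399.G7
import Pool.Agent.Run7.h399.G8
import Pool.Agent.Run7.h399.G9
import Pool.Agent.Run7.h399.G3
import Pool.Agent.Run7.h399.G5

/-!
# Varieties of lines of manifolds with local equations of given degrees
-/

set_option autoImplicit false

namespace Pool.Agent.Results.MP_429080_ag.LocalDegrees

open MvPolynomial Pool.Agent.Run7.h399 Pool.Agent.Run7.h399.LX Pool.Agent.R948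

/-- general points exist -/
lemma exists_pt {n c : ℕ} {I : Ideal (Pol (n + c + 1))} (hX : IsManifold n c I)
    (g : Pol (n + c + 1)) (hg : g ∉ I) : ∃ x ∈ zeros I, x ≠ 0 ∧ eval x g ≠ 0 ∧
      ∃ A : (Fin n → ℂ) →ₗ[ℂ] (Fin (n + c + 1) → ℂ), IsFrame I x A := by
  have hp := hX.prime
  obtain ⟨k, hk, hfree⟩ := exists_free (sc_of hX) (exists_ne_of hX)
  obtain ⟨x, hx, hxne, hxg⟩ : ∃ x ∈ Pool.Agent.Run7.h399.Hart.cone I, x ≠ 0 ∧
      eval x (g * k) ≠ 0 := by
    by_contra hcon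
    push Not at hcon
    rcases hp.mem_or_mem
      (Pool.Agent.Run7.h399.Hart.mem_of_vanish_ne I hp (exists_ne_of hX) _ hcon) with h | h
    · exact hg h
    · exact hk h
  rw [map_mul] at hxg
  obtain ⟨A, hA, -⟩ := exists_frame_of (τ := Fin n) (sc_of hX)
    (by rw [Fintype.card_fin, Fintype.card_fin]) hx
    (hfree x hx (right_ne_zero_of_mul hxg)) ⊥ bot_le (by rw [Submodule.mem_bot]; exact hxne)
  exact ⟨x, hx, hxne, left_ne_zero_of_mul hxg, A, isFrame_of (sc_of hX) hA⟩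

/-- the result at one point -/
lemma at_point {n c r : ℕ} (hc : 0 < c) (hr : r < n) {I : Ideal (Pol (n + c + 1))}
    (hX : IsManifold n c I) (δ : Fin c → ℕ) {x : Fin (n + c + 1) → ℂ}
    {A : (Fin n → ℂ) →ₗ[ℂ] (Fin (n + c + 1) → ℂ)} (hfp : FreePt I c x A) (hn : c + 2 * r ≤ n)
    (Y : Ideal (Pol n)) (hYp : Y.IsPrime) (hYmin : Y ∈ (linesI I x A).minimalPrimes)
    (hcardF : tdP Y + r = Fintype.card (Fin n)) (F : Fin c → Pol (n + c + 1)) (hF : ∀ i, F i ∈ I)
    (hFd : ∀ i, (F i).totalDegree ≤ δ i)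
    (hind : LinearIndependent ℂ (fun i => Pool.Agent.Run7.h399.Hart.grad (F i) x))
    (hFs : ∀ ξ ∈ Pool.Agent.Run7.h399.Hart.conormal I x,
      ∃ a : Fin c → ℂ, ξ = ∑ i, a i • Pool.Agent.Run7.h399.Hart.grad (F i) x)
    (hdeg : r ≤ c + 1 ∨ 2 * r + ∑ i, min (δ i - 2) (r - c) < n) :
    c ≤ r ∧ HasPureCodim r (linesIdeal I x A) ∧
      ∃ d : Fin c → ℕ, (∀ i, d i ≤ δ i) ∧ IsOfType r d (linesIdeal I x A) := by
  classical
  have hnd := nondeg_of hX
  have hcr : c ≤ r := codim_le hfp hnd Y hYmin hcardF (by rw [Fintype.card_fin]; omega)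
    (by rw [Fintype.card_fin]; omega) F hF hind
  have hfin : ∀ (Q : Fin c → Pol n) (G : Fin (r - c) → Pol n), (∀ i, (Q i).IsHomogeneous 2) →
      (∀ i, ∃ d, 3 ≤ d ∧ (G i).IsHomogeneous d) →
      linesI I x A = Ideal.span (Set.range Q ∪ Set.range G) →
      (∀ g : Pol n, (∀ i, ∃ k : ℕ, X i ^ k * g ∈ linesI I x A) → g ∈ linesI I x A) →
      HasPureCodim r (linesIdeal I x A) ∧
      ∃ d : Fin c → ℕ, (∀ i, d i ≤ δ i) ∧ IsOfType r d (linesIdeal I x A) := by
    intro Q G hQ hG hJ hsat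
    exact ⟨pure_of_ci hfp Y hYmin (by rw [hcardF, Fintype.card_fin]) (by omega)
      (isCI_of_generatedBy hcr ⟨hsat, Q, G, hQ, hG, hJ⟩),
      isOfType_of_ci hnd hfp Y hYmin hcardF hn hr F hF hind hFs δ hFd
      (isCI_of_generatedBy hcr ⟨hsat, Q, G, hQ, hG, hJ⟩)⟩
  refine ⟨hcr, ?_⟩
  rcases Nat.lt_or_ge r (c + 2) with hrc | hrc
  · rcases Nat.lt_or_ge r (c + 1) with hrc' | hrc'
    · have hrc0 : r = c := by omega
      obtain ⟨-, F', hF', hind', hJ, hsat⟩ := main1 hfp hnd Y hYmin hcardF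
        (by rw [Fintype.card_fin]; omega) (by rw [Fintype.card_fin]; omega) hrc0.le
      subst hrc0
      refine hfin (fun i => (lexp x A (F' i)).coeff 2) (fun i => 0)
        (fun i => lexp_coeff_homog x A (F' i) 2)
        (fun i => ⟨3, le_rfl, isHomogeneous_zero _ _ 3⟩) ?_ hsat
      have h0' : Set.range (fun _ : Fin (r - r) => (0 : Pol n)) = ∅ := by
        rw [Set.range_eq_empty_iff, Nat.sub_self]
        infer_instance
      rw [h0', Set.union_empty]
      exact hJ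
    · obtain ⟨Q, G, hQ, hG, hJ, hsat⟩ := main2b hfp hnd Y hYmin hcardF
        (by rw [Fintype.card_fin]; omega) (by rw [Fintype.card_fin]; omega) hc
        (by
          rw [Fintype.card_fin]
          have h1 : r - c = 1 := by omega
          rw [h1, one_mul]
          omega)
      exact hfin Q G hQ hG hJ hsat
  · have hn2 : 2 * r + ∑ i, min (δ i - 2) (r - c) < n := by omega
    obtain ⟨-, -, Q, G, hQ, hG, hJ, hsat⟩ := main_mixedS hfp hnd Y hYmin hcardF
      (by rw [Fintype.card_fin]; omega) hc (by rw [Fintype.card_fin]; omega) F hF hind hFs δ hFd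
      (by rw [Fintype.card_fin]; exact hn2)
    exact hfin Q G hQ (fun i => by
      obtain ⟨d, h3, -, hd⟩ := hG i
      exact ⟨d, h3, hd⟩) hJ hsat

theorem result (n c r : ℕ) (hc : 0 < c) (hr : r < n) (I : Ideal (Pol (n + c + 1)))
    (hX : IsManifold n c I) (δ : Fin c → ℕ) (hδ : HasEquations δ I)
    (hL : (c + 2 * r ≤ n ∧ LinesComponent n c r I) ∨
      ((4 * r ≤ n + 1 ∨ (4 * r ≤ n + 3 ∧ 3 * r + 2 ≤ n)) ∧ LinesNondegenerate n c r I))
    (hdeg : r ≤ c + 1 ∨ 2 * r + ∑ i, min (δ i - 2) (r - c) < n) :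
    c ≤ r ∧ r ≤ c + ∑ i, (δ i - 2) ∧
    ∃ g, g ∉ I ∧ ∀ x ∈ zeros I, eval x g ≠ 0 →
      ∀ A : (Fin n → ℂ) →ₗ[ℂ] (Fin (n + c + 1) → ℂ), IsFrame I x A →
        HasPureCodim r (linesIdeal I x A) ∧
        ∃ d : Fin c → ℕ, (∀ i, d i ≤ δ i) ∧ IsOfType r d (linesIdeal I x A) := by
  have hp := hX.prime
  obtain ⟨F, D, hD, hF, hFd, hFx⟩ := exists_lowS hX δ hδ
  -- it suffices to treat general points one by one
  suffices key : ∃ g, g ∉ I ∧ ∀ x ∈ zeros I, x ≠ 0 → eval x g ≠ 0 →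
      ∀ A : (Fin n → ℂ) →ₗ[ℂ] (Fin (n + c + 1) → ℂ), IsFrame I x A →
        c ≤ r ∧ HasPureCodim r (linesIdeal I x A) ∧
          ∃ d : Fin c → ℕ, (∀ i, d i ≤ δ i) ∧ IsOfType r d (linesIdeal I x A) by
    obtain ⟨g, hg, hgen⟩ := key
    obtain ⟨x, hx, hxne, hxg, A, hA⟩ := exists_pt hX g hg
    obtain ⟨h1, -, d, hd, hd2, hds, -⟩ := hgen x hx hxne hxg A hA
    have h2 : r ≤ c + ∑ i, (δ i - 2) := by
      have h3 : ∑ i, (d i - 1) ≤ ∑ i, (1 + (δ i - 2)) := Finset.sum_le_sum (fun i _ => by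
        have h4 := hd i
        have h5 := hd2 i
        omega)
      rw [hds, Finset.sum_add_distrib, Finset.sum_const, Finset.card_univ, Fintype.card_fin,
        smul_eq_mul, mul_one] at h3
      exact h3
    refine ⟨h1, h2, g, hg, fun x hx hxg A hA => ?_⟩
    have hxne : x ≠ 0 := by
      rintro rfl
      exact hA.notMem (Submodule.zero_mem _)
    exact (hgen x hx hxne hxg A hA).2
  rcases hL with ⟨hn, gL, hgL, hL⟩ | ⟨hn, hL⟩
  · obtain ⟨k', hk', hgen⟩ := exists_general hX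
    refine ⟨gL * k' * D, ?_, fun x hx hxne hxg A hA => ?_⟩
    · intro h
      rcases hp.mem_or_mem h with h1 | h1
      · rcases hp.mem_or_mem h1 with h2 | h2
        · exact hgL h2
        · exact hk' h2
      · exact hD h1
    · rw [map_mul, map_mul] at hxg
      obtain ⟨Y, hYmin, hYd⟩ := hL x hx (left_ne_zero_of_mul (left_ne_zero_of_mul hxg)) A hA
      have hYp : Y.IsPrime := hYmin.1.1
      rw [dim_prime] at hYd
      have hY2 : tdP Y = n - r := by exact_mod_cast hYd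
      obtain ⟨hind, hFs⟩ := hFx x hx hxne (right_ne_zero_of_mul hxg)
      exact at_point hc hr hX δ (hgen x hx (right_ne_zero_of_mul (left_ne_zero_of_mul hxg)) A hA)
        hn Y hYp hYmin (by rw [Fintype.card_fin]; omega) F hF hFd hind hFs hdeg
  · obtain ⟨hcr, h0, hh0, hgen⟩ := exists_setup hX hr hn hL
    refine ⟨h0 * D, ?_, fun x hx hxne hxg A hA => ?_⟩
    · intro h
      rcases hp.mem_or_mem h with h1 | h1
      · exact hh0 h1
      · exact hD h1
    · rw [map_mul] at hxg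
      obtain ⟨hfp, Y, hYp, hYmin, hcard⟩ := hgen x hx (left_ne_zero_of_mul hxg) A hA
      obtain ⟨hind, hFs⟩ := hFx x hx hxne (right_ne_zero_of_mul hxg)
      exact at_point hc hr hX δ hfp (by omega) Y hYp hYmin
        (by rw [Fintype.card_fin]; exact hcard) F hF hFd hind hFs hdeg

end Pool.Agent.Results.MP_429080_ag.LocalDegrees
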